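import Mathlib

/-!
# Auxiliary polynomial for the Subspace theorem: counting unbalanced exponents
-/

open Finset

namespace Helper57.SST

/-- exponent families of multidegree `r` -/
def Expo (M N : ℕ) (r : Fin M → ℕ) : Finset (Fin M → Fin N → ℕ) :=
  Fintype.piFinset (fun h => Finset.piAntidiag (Finset.univ : Finset (Fin N)) (r h))

lemma mem_piAnti {N n : ℕ} {f : Fin N → ℕ} :
    f ∈ Finset.piAntidiag (Finset.univ : Finset (Fin N)) n ↔ ∑ i, f i = n := by
  simp [Finset.mem_piAntidiag]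

lemma mem_Expo {M N : ℕ} {r : Fin M → ℕ} {g : Fin M → Fin N → ℕ} :
    g ∈ Expo M N r ↔ ∀ h, ∑ i, g h i = r h := by
  unfold Expo
  rw [Fintype.mem_piFinset]
  exact forall_congr' fun h => mem_piAnti

lemma sum_coord_eq {N n : ℕ} (i j : Fin N) :
    ∑ f ∈ Finset.piAntidiag (Finset.univ : Finset (Fin N)) n, (f i : ℝ) =
      ∑ f ∈ Finset.piAntidiag (Finset.univ : Finset (Fin N)) n, (f j : ℝ) := by
  refine Finset.sum_nbij' (fun f => f ∘ Equiv.swap i j) (fun f => f ∘ Equiv.swap i j) ?_ ?_ ?_ ?_ ?_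
  · intro f hf
    rw [mem_piAnti] at hf ⊢
    rw [← hf]
    exact Equiv.sum_comp (Equiv.swap i j) f
  · intro f hf
    rw [mem_piAnti] at hf ⊢
    rw [← hf]
    exact Equiv.sum_comp (Equiv.swap i j) f
  · intro f _; funext x; simp
  · intro f _; funext x; simp
  · intro f _; simp

lemma sum_coord {N n : ℕ} (i : Fin N) :
    (N : ℝ) * ∑ f ∈ Finset.piAntidiag (Finset.univ : Finset (Fin N)) n, (f i : ℝ) =
      n * (Finset.piAntidiag (Finset.univ : Finset (Fin N)) n).card := by
  have h1 : ∑ j : Fin N, ∑ f ∈ Finset.piAntidiag (Finset.univ : Finset (Fin N)) n, (f j : ℝ) =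
      (N : ℝ) * ∑ f ∈ Finset.piAntidiag (Finset.univ : Finset (Fin N)) n, (f i : ℝ) := by
    rw [Finset.sum_congr rfl (fun j _ => sum_coord_eq (n := n) j i)]
    simp
  rw [← h1, Finset.sum_comm]
  have h2 : ∀ f ∈ Finset.piAntidiag (Finset.univ : Finset (Fin N)) n,
      ∑ j : Fin N, (f j : ℝ) = n := by
    intro f hf
    rw [mem_piAnti] at hf
    rw [← hf]; push_cast; rfl
  rw [Finset.sum_congr rfl h2]
  simp [mul_comm]

/-- the centred variable -/
noncomputable def yy (N n : ℕ) (i : Fin N) (f : Fin N → ℕ) : ℝ := (f i : ℝ) / n - 1 / N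

lemma sum_yy {N n : ℕ} (hN : 0 < N) (hn : 0 < n) (i : Fin N) :
    ∑ f ∈ Finset.piAntidiag (Finset.univ : Finset (Fin N)) n, yy N n i f = 0 := by
  unfold yy
  rw [Finset.sum_sub_distrib, ← Finset.sum_div]
  have h := sum_coord (n := n) i
  have hN' : (N : ℝ) ≠ 0 := by positivity
  have hn' : (n : ℝ) ≠ 0 := by positivity
  simp only [Finset.sum_const, nsmul_eq_mul]
  field_simp
  linarith

lemma yy_sq_le {N n : ℕ} (hN : 0 < N) (hn : 0 < n) (i : Fin N) {f : Fin N → ℕ}
    (hf : f ∈ Finset.piAntidiag (Finset.univ : Finset (Fin N)) n) : (yy N n i f) ^ 2 ≤ 1 := by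
  rw [mem_piAnti] at hf
  have h1 : f i ≤ n := by
    rw [← hf]; exact Finset.single_le_sum (f := f) (fun _ _ => Nat.zero_le _) (Finset.mem_univ i)
  have h2 : (f i : ℝ) / n ≤ 1 := by
    rw [div_le_one (by positivity)]; exact_mod_cast h1
  have h3 : 0 ≤ (f i : ℝ) / n := by positivity
  have h4 : (1 : ℝ) / N ≤ 1 := by
    rw [div_le_one (by positivity)]; exact_mod_cast hN
  have h5 : (0 : ℝ) ≤ 1 / N := by positivity
  unfold yy
  rw [sq_le_one_iff_abs_le_one, abs_le]
  constructor <;> linarith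

lemma cross_zero {M N : ℕ} (hN : 0 < N) {r : Fin M → ℕ} (hr : ∀ h, 0 < r h) (i : Fin N)
    {h h' : Fin M} (hne : h ≠ h') :
    ∑ g ∈ Expo M N r, yy N (r h) i (g h) * yy N (r h') i (g h') = 0 := by
  classical
  set F : Fin M → (Fin N → ℕ) → ℝ := fun a f =>
    if a = h then yy N (r h) i f else if a = h' then yy N (r h') i f else 1 with hF
  have h1 : ∀ g ∈ Expo M N r, yy N (r h) i (g h) * yy N (r h') i (g h') = ∏ a, F a (g a) := by
    intro g _
    rw [← Finset.mul_prod_erase Finset.univ _ (Finset.mem_univ h),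
      ← Finset.mul_prod_erase (Finset.univ.erase h) _
        (Finset.mem_erase.mpr ⟨hne.symm, Finset.mem_univ h'⟩)]
    have h2 : ∏ x ∈ (Finset.univ.erase h).erase h', F x (g x) = 1 := by
      apply Finset.prod_eq_one
      intro x hx
      rw [Finset.mem_erase, Finset.mem_erase] at hx
      simp [hF, hx.1, hx.2.1]
    rw [h2]
    simp [hF, hne.symm]
  rw [Finset.sum_congr rfl h1]
  unfold Expo
  rw [← Finset.prod_univ_sum]
  apply Finset.prod_eq_zero (Finset.mem_univ h)
  have : ∀ f ∈ Finset.piAntidiag (Finset.univ : Finset (Fin N)) (r h), F h f = yy N (r h) i f := by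
    intro f _; simp [hF]
  rw [Finset.sum_congr rfl this]
  exact sum_yy hN (hr h) i

lemma second_moment {M N : ℕ} (hN : 0 < N) {r : Fin M → ℕ} (hr : ∀ h, 0 < r h) (i : Fin N) :
    ∑ g ∈ Expo M N r, (∑ h, yy N (r h) i (g h)) ^ 2 ≤ M * (Expo M N r).card := by
  classical
  have h1 : ∀ g ∈ Expo M N r, (∑ h, yy N (r h) i (g h)) ^ 2 =
      ∑ h, ∑ h', yy N (r h) i (g h) * yy N (r h') i (g h') := by
    intro g _
    rw [sq, Finset.sum_mul_sum]
  rw [Finset.sum_congr rfl h1, Finset.sum_comm]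
  have h2 : ∀ h ∈ (Finset.univ : Finset (Fin M)),
      ∑ g ∈ Expo M N r, ∑ h', yy N (r h) i (g h) * yy N (r h') i (g h') ≤ (Expo M N r).card := by
    intro h _
    rw [Finset.sum_comm]
    rw [Finset.sum_eq_single h]
    · calc ∑ g ∈ Expo M N r, yy N (r h) i (g h) * yy N (r h) i (g h)
          ≤ ∑ g ∈ Expo M N r, (1 : ℝ) := by
            apply Finset.sum_le_sum
            intro g hg
            rw [← sq]
            apply yy_sq_le hN (hr h)
            unfold Expo at hg
            rw [Fintype.mem_piFinset] at hg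
            exact hg h
        _ = _ := by simp
    · intro h' _ hne
      exact cross_zero hN hr i hne.symm
    · intro hh; exact absurd (Finset.mem_univ h) hh
  calc _ ≤ ∑ h : Fin M, ((Expo M N r).card : ℝ) := Finset.sum_le_sum h2
    _ = _ := by simp

lemma sum_yy_eq {M N : ℕ} (r : Fin M → ℕ) (i : Fin N) (g : Fin M → Fin N → ℕ) :
    ∑ h, yy N (r h) i (g h) = ∑ h, (g h i : ℝ) / r h - M / N := by
  unfold yy
  rw [Finset.sum_sub_distrib]
  simp [div_eq_mul_inv]

/-- unbalanced exponent families at `i` -/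
noncomputable def Bad (M N : ℕ) (r : Fin M → ℕ) (eps : ℝ) (i : Fin N) :
    Finset (Fin M → Fin N → ℕ) :=
  by classical exact (Expo M N r).filter (fun g => eps * M < |∑ h, (g h i : ℝ) / r h - M / N|)

lemma card_Bad_le {M N : ℕ} (hN : 0 < N) (hM : 0 < M) {r : Fin M → ℕ} (hr : ∀ h, 0 < r h)
    {eps : ℝ} (heps : 0 < eps) (i : Fin N) :
    eps ^ 2 * M * (Bad M N r eps i).card ≤ (Expo M N r).card := by
  classical
  have hM' : (0 : ℝ) < M := by exact_mod_cast hM
  have h1 := second_moment hN hr i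
  have h2 : ∑ g ∈ Bad M N r eps i, (eps * M) ^ 2 ≤
      ∑ g ∈ Expo M N r, (∑ h, yy N (r h) i (g h)) ^ 2 := by
    calc ∑ g ∈ Bad M N r eps i, (eps * M) ^ 2
        ≤ ∑ g ∈ Bad M N r eps i, (∑ h, yy N (r h) i (g h)) ^ 2 := by
          apply Finset.sum_le_sum
          intro g hg
          unfold Bad at hg
          rw [Finset.mem_filter] at hg
          rw [sum_yy_eq, ← sq_abs (∑ h, (g h i : ℝ) / r h - M / N)]
          exact pow_le_pow_left₀ (by positivity) hg.2.le 2
      _ ≤ _ := by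
          apply Finset.sum_le_sum_of_subset_of_nonneg
          · unfold Bad; exact Finset.filter_subset _ _
          · intro g _ _; positivity
  rw [Finset.sum_const, nsmul_eq_mul] at h2
  have h3 : ((Bad M N r eps i).card : ℝ) * (eps * M) ^ 2 ≤ M * (Expo M N r).card := h2.trans h1
  have h4 : M * (eps ^ 2 * M * ((Bad M N r eps i).card : ℝ)) ≤ M * (Expo M N r).card := by
    calc _ = ((Bad M N r eps i).card : ℝ) * (eps * M) ^ 2 := by ring
      _ ≤ _ := h3
  exact le_of_mul_le_mul_left h4 hM'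

lemma card_Expo_le {M N : ℕ} (r : Fin M → ℕ) : (Expo M N r).card ≤ 2 ^ (N * ∑ h, r h) := by
  unfold Expo
  rw [Fintype.card_piFinset, Finset.mul_sum, ← Finset.prod_pow_eq_pow_sum]
  apply Finset.prod_le_prod' 
  intro h _
  have h1 : Finset.piAntidiag (Finset.univ : Finset (Fin N)) (r h) ⊆
      Fintype.piFinset (fun _ => Finset.range (r h + 1)) := by
    intro f hf
    rw [mem_piAnti] at hf
    rw [Fintype.mem_piFinset]
    intro i
    rw [Finset.mem_range, Nat.lt_succ_iff, ← hf]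
    exact Finset.single_le_sum (f := f) (fun _ _ => Nat.zero_le _) (Finset.mem_univ i)
  calc _ ≤ (Fintype.piFinset (fun _ : Fin N => Finset.range (r h + 1))).card :=
        Finset.card_le_card h1
    _ = (r h + 1) ^ N := by simp
    _ ≤ (2 ^ r h) ^ N := Nat.pow_le_pow_left (Nat.lt_two_pow_self) N
    _ = _ := by rw [← pow_mul, mul_comm]

lemma Expo_nonempty {M N : ℕ} (hN : 0 < N) (r : Fin M → ℕ) : (Expo M N r).Nonempty := by
  refine ⟨fun h i => if i = ⟨0, hN⟩ then r h else 0, ?_⟩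
  rw [mem_Expo]
  intro h
  simp

end Helper57.SST
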