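import Mathlib
import Pool.Agent.Helper57.SST.Defs
import Pool.Agent.Helper25.SST.AuxCount

/-!
# Auxiliary polynomial for the Subspace theorem
-/

open Finset MvPolynomial

attribute [local instance] Matrix.seminormedAddCommGroup

namespace Helper57.SST

section Maj

variable {σ : Type*}

/-- `Q` majorises `P` coefficientwise -/
def Maj (P Q : MvPolynomial σ ℤ) : Prop := ∀ e, |P.coeff e| ≤ Q.coeff e

lemma Maj.nonneg {P Q : MvPolynomial σ ℤ} (h : Maj P Q) (e) : 0 ≤ Q.coeff e :=
  (abs_nonneg _).trans (h e)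

lemma Maj.one : Maj (1 : MvPolynomial σ ℤ) 1 := by
  intro e
  classical
  rw [coeff_one]
  split_ifs <;> simp

lemma Maj.mul {P Q P' Q' : MvPolynomial σ ℤ} (h : Maj P Q) (h' : Maj P' Q') :
    Maj (P * P') (Q * Q') := by
  classical
  intro e
  rw [coeff_mul, coeff_mul]
  refine (Finset.abs_sum_le_sum_abs _ _).trans (Finset.sum_le_sum fun x _ => ?_)
  rw [abs_mul]
  exact mul_le_mul (h _) (h' _) (abs_nonneg _) (h.nonneg _)

lemma Maj.pow {P Q : MvPolynomial σ ℤ} (h : Maj P Q) (n : ℕ) : Maj (P ^ n) (Q ^ n) := by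
  induction n with
  | zero => simpa using Maj.one
  | succ n ih => rw [pow_succ, pow_succ]; exact ih.mul h

lemma Maj.add {P Q P' Q' : MvPolynomial σ ℤ} (h : Maj P Q) (h' : Maj P' Q') :
    Maj (P + P') (Q + Q') := by
  intro e
  rw [coeff_add, coeff_add]
  exact (abs_add_le _ _).trans (add_le_add (h e) (h' e))

lemma Maj.zero : Maj (0 : MvPolynomial σ ℤ) 0 := by intro e; simp

lemma Maj.sum {ι : Type*} (s : Finset ι) {P Q : ι → MvPolynomial σ ℤ}
    (h : ∀ i ∈ s, Maj (P i) (Q i)) : Maj (∑ i ∈ s, P i) (∑ i ∈ s, Q i) := by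
  classical
  induction s using Finset.induction_on with
  | empty => simpa using Maj.zero
  | insert a s ha ih =>
    rw [Finset.sum_insert ha, Finset.sum_insert ha]
    exact (h a (Finset.mem_insert_self _ _)).add (ih fun i hi => h i (Finset.mem_insert_of_mem hi))

lemma Maj.prod {ι : Type*} (s : Finset ι) {P Q : ι → MvPolynomial σ ℤ}
    (h : ∀ i ∈ s, Maj (P i) (Q i)) : Maj (∏ i ∈ s, P i) (∏ i ∈ s, Q i) := by
  classical
  induction s using Finset.induction_on with
  | empty => simpa using Maj.one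
  | insert a s ha ih =>
    rw [Finset.prod_insert ha, Finset.prod_insert ha]
    exact (h a (Finset.mem_insert_self _ _)).mul (ih fun i hi => h i (Finset.mem_insert_of_mem hi))

lemma Maj.C_mul_X (a : ℤ) (i : σ) : Maj (C a * X i) (C |a| * X i) := by
  classical
  intro e
  rw [coeff_C_mul, coeff_C_mul, coeff_X, abs_mul]
  split_ifs <;> simp

lemma Maj.le_eval {P Q : MvPolynomial σ ℤ} (h : Maj P Q) (e) :
    |P.coeff e| ≤ MvPolynomial.eval (fun _ => (1 : ℤ)) Q := by
  classical
  have h1 : MvPolynomial.eval (fun _ => (1 : ℤ)) Q = ∑ d ∈ Q.support, Q.coeff d := by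
    rw [MvPolynomial.eval_eq]
    apply Finset.sum_congr rfl
    intro d _
    simp
  rw [h1]
  refine (h e).trans ?_
  by_cases he : e ∈ Q.support
  · exact Finset.single_le_sum (f := fun d => Q.coeff d) (fun d _ => h.nonneg d) he
  · rw [MvPolynomial.notMem_support_iff.mp he]
    exact Finset.sum_nonneg fun d _ => h.nonneg d

end Maj

/-- the exponent of `g` as a finitely supported function -/
noncomputable def toE {M N : ℕ} (g : Fin M → Fin N → ℕ) : (Fin M × Fin N) →₀ ℕ :=
  Finsupp.equivFunOnFinite.symm (fun p => g p.1 p.2)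

@[simp] lemma toE_apply {M N : ℕ} (g : Fin M → Fin N → ℕ) (h : Fin M) (i : Fin N) :
    toE g (h, i) = g h i := rfl

lemma toE_inj {M N : ℕ} {g g' : Fin M → Fin N → ℕ} (h : toE g = toE g') : g = g' := by
  funext a b
  have := DFunLike.congr_fun h (a, b)
  simpa using this

/-- the inverse direction -/
def ofE {M N : ℕ} (e : (Fin M × Fin N) →₀ ℕ) : Fin M → Fin N → ℕ := fun h i => e (h, i)

lemma toE_ofE {M N : ℕ} (e : (Fin M × Fin N) →₀ ℕ) : toE (ofE e) = e := by
  ext ⟨h, i⟩
  simp [ofE]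

lemma isMultiHom_mul {M N : ℕ} {F G : MvPolynomial (Fin M × Fin N) ℤ} {r s : Fin M → ℕ}
    (hF : IsMultiHom F r) (hG : IsMultiHom G s) : IsMultiHom (F * G) (fun h => r h + s h) := by
  classical
  intro e he h
  obtain ⟨a, ha, b, hb, rfl⟩ := Finset.mem_add.mp (MvPolynomial.support_mul F G he)
  simp only [Finsupp.coe_add, Pi.add_apply, Finset.sum_add_distrib]
  rw [hF a ha h, hG b hb h]

lemma isMultiHom_one {M N : ℕ} : IsMultiHom (1 : MvPolynomial (Fin M × Fin N) ℤ) (fun _ => 0) := by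
  classical
  intro e he h
  rw [MvPolynomial.mem_support_iff, coeff_one] at he
  split_ifs at he with h0
  · subst h0; simp
  · exact absurd rfl he

lemma isMultiHom_pow {M N : ℕ} {F : MvPolynomial (Fin M × Fin N) ℤ} {r : Fin M → ℕ}
    (hF : IsMultiHom F r) (n : ℕ) : IsMultiHom (F ^ n) (fun h => n * r h) := by
  induction n with
  | zero => simpa using isMultiHom_one
  | succ n ih =>
    rw [pow_succ]
    have := isMultiHom_mul ih hF
    convert this using 2
    ring

lemma isMultiHom_prod {M N : ℕ} {ι : Type*} (s : Finset ι)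
    {F : ι → MvPolynomial (Fin M × Fin N) ℤ} {r : ι → Fin M → ℕ}
    (hF : ∀ i ∈ s, IsMultiHom (F i) (r i)) :
    IsMultiHom (∏ i ∈ s, F i) (fun h => ∑ i ∈ s, r i h) := by
  classical
  induction s using Finset.induction_on with
  | empty => simpa using isMultiHom_one
  | insert a s ha ih =>
    rw [Finset.prod_insert ha]
    simp only [Finset.sum_insert ha]
    exact isMultiHom_mul (hF a (Finset.mem_insert_self _ _))
      (ih fun i hi => hF i (Finset.mem_insert_of_mem hi))

/-- the substituted variable -/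
noncomputable def lin {M N : ℕ} (A : Matrix (Fin N) (Fin N) ℤ) (p : Fin M × Fin N) :
    MvPolynomial (Fin M × Fin N) ℤ := ∑ s, C (A p.2 s) * X (p.1, s)

lemma isMultiHom_lin {M N : ℕ} (A : Matrix (Fin N) (Fin N) ℤ) (p : Fin M × Fin N) :
    IsMultiHom (lin (M := M) A p) (fun h => if h = p.1 then 1 else 0) := by
  classical
  intro e he h
  rw [MvPolynomial.mem_support_iff] at he
  unfold lin at he
  rw [coeff_sum] at he
  obtain ⟨s, _, hs⟩ := Finset.exists_ne_zero_of_sum_ne_zero he
  rw [coeff_C_mul, coeff_X] at hs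
  split_ifs at hs with h0
  · rw [← h0]
    show _ = if h = p.1 then 1 else 0
    by_cases hh : h = p.1
    · subst hh
      rw [if_pos rfl]
      rw [Finset.sum_eq_single s]
      · simp
      · intro b _ hb
        rw [Finsupp.single_apply, if_neg]
        intro h2
        exact hb (Prod.ext_iff.mp h2).2.symm
      · intro h2; exact absurd (Finset.mem_univ _) h2
    · rw [if_neg hh]
      apply Finset.sum_eq_zero
      intro b _
      rw [Finsupp.single_apply, if_neg]
      intro h2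
      exact hh (Prod.ext_iff.mp h2).1.symm
  · simp at hs

/-- the image of a monomial -/
noncomputable def img {M N : ℕ} (A : Matrix (Fin N) (Fin N) ℤ) (g : Fin M → Fin N → ℕ) :
    MvPolynomial (Fin M × Fin N) ℤ := ∏ p : Fin M × Fin N, lin A p ^ (g p.1 p.2)

lemma subst_monomial {M N : ℕ} (A : Matrix (Fin N) (Fin N) ℤ) (g : Fin M → Fin N → ℕ) (t : ℤ) :
    subst (fun _ : Fin M => A) (monomial (toE g) t) = C t * img A g := by
  unfold subst img lin
  rw [aeval_monomial]
  congr 1
  rw [Finsupp.prod_fintype _ _ (by intro i; simp)]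
  rfl

lemma isMultiHom_img {M N : ℕ} (A : Matrix (Fin N) (Fin N) ℤ) (g : Fin M → Fin N → ℕ) :
    IsMultiHom (img A g) (fun h => ∑ i, g h i) := by
  classical
  unfold img
  have := isMultiHom_prod (Finset.univ : Finset (Fin M × Fin N))
    (F := fun p => lin A p ^ (g p.1 p.2))
    (r := fun p h => g p.1 p.2 * (if h = p.1 then 1 else 0))
    (fun p _ => isMultiHom_pow (isMultiHom_lin A p) _)
  convert this using 2 with h
  rw [Fintype.sum_prod_type]
  simp only [mul_ite, mul_one, mul_zero]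
  rw [Finset.sum_eq_single h]
  · simp
  · intro b _ hb
    apply Finset.sum_eq_zero
    intro c _
    rw [if_neg (fun h2 => hb h2.symm)]
  · intro h2; exact absurd (Finset.mem_univ _) h2

lemma coeff_img_le {M N : ℕ} (A : Matrix (Fin N) (Fin N) ℤ) (K : ℤ)
    (hA : ∀ i, ∑ s, |A i s| ≤ K) (g : Fin M → Fin N → ℕ) (e) :
    |(img A g).coeff e| ≤ K ^ (∑ h, ∑ i, g h i) := by
  have h1 : Maj (img A g) (∏ p : Fin M × Fin N, (∑ s, C |A p.2 s| * X (p.1, s)) ^ (g p.1 p.2)) := by
    unfold img lin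
    apply Maj.prod
    intro p _
    apply Maj.pow
    apply Maj.sum
    intro s _
    exact Maj.C_mul_X _ _
  refine (h1.le_eval e).trans ?_
  rw [map_prod]
  simp only [map_pow, map_sum, map_mul, eval_C, eval_X, mul_one]
  calc ∏ p : Fin M × Fin N, (∑ s, |A p.2 s|) ^ (g p.1 p.2)
      ≤ ∏ p : Fin M × Fin N, K ^ (g p.1 p.2) := by
        apply Finset.prod_le_prod
        · intro p _
          exact pow_nonneg (Finset.sum_nonneg fun _ _ => abs_nonneg _) _
        · intro p _
          exact pow_le_pow_left₀ (Finset.sum_nonneg fun _ _ => abs_nonneg _) (hA _) _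
    _ = _ := by
        rw [Finset.prod_pow_eq_pow_sum, Fintype.sum_prod_type]

/-- the polynomial with given coefficients on `Expo` -/
noncomputable def polyOf {M N : ℕ} (r : Fin M → ℕ) (t : (Fin M → Fin N → ℕ) → ℤ) :
    MvPolynomial (Fin M × Fin N) ℤ := ∑ g ∈ Expo M N r, monomial (toE g) (t g)

lemma coeff_polyOf {M N : ℕ} (r : Fin M → ℕ) (t : (Fin M → Fin N → ℕ) → ℤ)
    {g : Fin M → Fin N → ℕ} (hg : g ∈ Expo M N r) : (polyOf r t).coeff (toE g) = t g := by
  classical
  unfold polyOf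
  rw [coeff_sum, Finset.sum_eq_single g]
  · rw [coeff_monomial, if_pos rfl]
  · intro b _ hb
    rw [coeff_monomial, if_neg]
    intro h; exact hb (toE_inj h)
  · intro h; exact absurd hg h

lemma coeff_polyOf' {M N : ℕ} (r : Fin M → ℕ) (t : (Fin M → Fin N → ℕ) → ℤ)
    (e : (Fin M × Fin N) →₀ ℕ) :
    (polyOf r t).coeff e = if ofE e ∈ Expo M N r then t (ofE e) else 0 := by
  classical
  split_ifs with h
  · have := coeff_polyOf r t h
    rwa [toE_ofE] at this
  · unfold polyOf
    rw [coeff_sum]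
    apply Finset.sum_eq_zero
    intro g hg
    rw [coeff_monomial, if_neg]
    intro h2
    apply h
    rw [← h2]
    have : ofE (toE g) = g := by funext a b; simp [ofE]
    rwa [this]

lemma isMultiHom_polyOf {M N : ℕ} (r : Fin M → ℕ) (t : (Fin M → Fin N → ℕ) → ℤ) :
    IsMultiHom (polyOf r t) r := by
  intro e he h
  rw [MvPolynomial.mem_support_iff, coeff_polyOf'] at he
  split_ifs at he with h0
  · rw [mem_Expo] at h0
    exact h0 h
  · exact absurd rfl he

lemma subst_polyOf {M N : ℕ} (A : Matrix (Fin N) (Fin N) ℤ) (r : Fin M → ℕ)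
    (t : (Fin M → Fin N → ℕ) → ℤ) :
    subst (fun _ : Fin M => A) (polyOf r t) = ∑ g ∈ Expo M N r, C (t g) * img A g := by
  unfold polyOf
  rw [map_sum]
  exact Finset.sum_congr rfl fun g _ => subst_monomial A g (t g)

lemma subst_polyOf_support {M N : ℕ} (A : Matrix (Fin N) (Fin N) ℤ) (r : Fin M → ℕ)
    (t : (Fin M → Fin N → ℕ) → ℤ) {e : (Fin M × Fin N) →₀ ℕ}
    (he : e ∈ (subst (fun _ : Fin M => A) (polyOf r t)).support) : ofE e ∈ Expo M N r := by
  classical
  rw [subst_polyOf, MvPolynomial.mem_support_iff, coeff_sum] at he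
  obtain ⟨g, hg, hs⟩ := Finset.exists_ne_zero_of_sum_ne_zero he
  rw [coeff_C_mul] at hs
  have h1 : e ∈ (img A g).support := by
    rw [MvPolynomial.mem_support_iff]
    exact right_ne_zero_of_mul hs
  rw [mem_Expo] at hg ⊢
  intro h
  have h2 : ∑ i, e (h, i) = ∑ i, g h i := isMultiHom_img A g e h1 h
  rw [hg h] at h2
  exact h2

theorem aux_poly (N : ℕ) (hN : 0 < N) {V : Type*} [Fintype V]
    (A : V → Matrix (Fin N) (Fin N) ℤ) (ε : ℝ) (hε : 0 < ε) (M : ℕ)
    (hM : 2 * (Fintype.card V : ℝ) * N / ε ^ 2 < M) :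
    ∃ C : ℝ, 1 ≤ C ∧ ∀ r : Fin M → ℕ, (∀ h, 0 < r h) →
      ∃ F : MvPolynomial (Fin M × Fin N) ℤ, F ≠ 0 ∧ IsMultiHom F r ∧
        (∀ e, |((F.coeff e : ℤ) : ℝ)| ≤ C ^ (∑ h, r h)) ∧
        ∀ v, ∀ e ∈ (subst (fun _ : Fin M => A v) F).support, ∀ i,
          |∑ h, (e (h, i) : ℝ) / r h - (M : ℝ) / N| ≤ ε * M := by
  classical
  have hMpos : 0 < M := by
    have : (0 : ℝ) < M := lt_of_le_of_lt (by positivity) hM
    exact_mod_cast this
  set K : ℤ := 1 + ∑ v, ∑ i, ∑ s, |A v i s| with hK
  have hKrow : ∀ v i, ∑ s, |A v i s| ≤ K := by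
    intro v i
    have h1 : ∑ s, |A v i s| ≤ ∑ i, ∑ s, |A v i s| :=
      Finset.single_le_sum (f := fun i => ∑ s, |A v i s|)
        (fun _ _ => Finset.sum_nonneg fun _ _ => abs_nonneg _) (Finset.mem_univ i)
    have h2 : ∑ i, ∑ s, |A v i s| ≤ ∑ v, ∑ i, ∑ s, |A v i s| :=
      Finset.single_le_sum (f := fun v => ∑ i, ∑ s, |A v i s|)
        (fun _ _ => Finset.sum_nonneg fun _ _ => Finset.sum_nonneg fun _ _ => abs_nonneg _)
        (Finset.mem_univ v)
    rw [hK]; linarith
  have hK1 : 1 ≤ K := by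
    rw [hK]
    have : 0 ≤ ∑ v, ∑ i, ∑ s, |A v i s| :=
      Finset.sum_nonneg fun _ _ => Finset.sum_nonneg fun _ _ => Finset.sum_nonneg
        fun _ _ => abs_nonneg _
    linarith
  have hK1' : (1 : ℝ) ≤ (K : ℝ) := by exact_mod_cast hK1
  refine ⟨2 ^ N * K, ?_, ?_⟩
  · have : (1 : ℝ) ≤ 2 ^ N := one_le_pow₀ (by norm_num)
    nlinarith
  intro r hr
  have hC1 : (1 : ℝ) ≤ 2 ^ N * K := by
    have : (1 : ℝ) ≤ 2 ^ N := one_le_pow₀ (by norm_num)
    nlinarith
  -- equations
  set bad : Finset (V × (Fin M → Fin N → ℕ)) :=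
    (Finset.univ : Finset V) ×ˢ (Finset.univ.biUnion fun i => Bad M N r ε i) with hbad
  -- reduction: it suffices to find a coefficient vector
  suffices hmain : ∃ t : (Fin M → Fin N → ℕ) → ℤ, (∃ g ∈ Expo M N r, t g ≠ 0) ∧
      (∀ g ∈ Expo M N r, |(t g : ℝ)| ≤ (2 ^ N * K) ^ (∑ h, r h)) ∧
      ∀ x ∈ bad, (subst (fun _ : Fin M => A x.1) (polyOf r t)).coeff (toE x.2) = 0 by
    obtain ⟨t, ⟨g0, hg0, ht0⟩, htb, hte⟩ := hmain
    refine ⟨polyOf r t, ?_, isMultiHom_polyOf r t, ?_, ?_⟩
    · intro h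
      have h1 := coeff_polyOf r t hg0
      rw [h, coeff_zero] at h1
      exact ht0 h1.symm
    · intro e
      rw [coeff_polyOf']
      split_ifs with h0
      · exact htb _ h0
      · simp only [Int.cast_zero, abs_zero]; positivity
    · intro v e he i
      have h1 := subst_polyOf_support (A v) r t he
      by_contra hcon
      push Not at hcon
      have h2 : ofE e ∈ Bad M N r ε i := by
        unfold Bad
        rw [Finset.mem_filter]
        exact ⟨h1, hcon⟩
      have h3 : (v, ofE e) ∈ bad := by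
        rw [hbad, Finset.mem_product]
        exact ⟨Finset.mem_univ _, Finset.mem_biUnion.mpr ⟨i, Finset.mem_univ _, h2⟩⟩
      have h4 := hte _ h3
      rw [toE_ofE] at h4
      rw [MvPolynomial.mem_support_iff] at he
      exact he h4
  rcases Finset.eq_empty_or_nonempty bad with hemp | hne
  · obtain ⟨g0, hg0⟩ := Expo_nonempty hN r
    refine ⟨fun _ => 1, ⟨g0, hg0, one_ne_zero⟩, ?_, ?_⟩
    · intro g _
      simp only [Int.cast_one, abs_one]
      exact one_le_pow₀ hC1
    · intro x hx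
      rw [hemp] at hx
      exact absurd hx (Finset.notMem_empty _)
  -- Siegel
  let α := {x // x ∈ bad}
  let β := {g // g ∈ Expo M N r}
  let L : Matrix α β ℤ := Matrix.of fun x g => (img (A x.1.1) g.1).coeff (toE x.1.2)
  have hcα : (Fintype.card α : ℝ) * 2 < Fintype.card β := by
    have h1 : Fintype.card α = bad.card := Fintype.card_coe _
    have h2 : Fintype.card β = (Expo M N r).card := Fintype.card_coe _
    rw [h1, h2]
    have h3 : bad.card ≤ Fintype.card V * ∑ i : Fin N, (Bad M N r ε i).card := by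
      rw [hbad, Finset.card_product]
      exact Nat.mul_le_mul_left _ Finset.card_biUnion_le
    have h4 : ε ^ 2 * M * (∑ i : Fin N, ((Bad M N r ε i).card : ℝ)) ≤ N * (Expo M N r).card := by
      rw [Finset.mul_sum]
      calc _ ≤ ∑ i : Fin N, ((Expo M N r).card : ℝ) :=
            Finset.sum_le_sum fun i _ => card_Bad_le hN hMpos hr hε i
        _ = _ := by simp
    have h5 : (bad.card : ℝ) ≤ Fintype.card V * ∑ i : Fin N, ((Bad M N r ε i).card : ℝ) := by
      exact_mod_cast h3
    have h6 : 2 * (Fintype.card V : ℝ) * N < ε ^ 2 * M := by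
      rw [div_lt_iff₀ (by positivity)] at hM
      linarith
    have hT : (0 : ℝ) < (Expo M N r).card := by
      exact_mod_cast Finset.card_pos.mpr (Expo_nonempty hN r)
    have hεM : 0 < ε ^ 2 * M := by positivity
    have h7 : ε ^ 2 * M * ((bad.card : ℝ) * 2) < ε ^ 2 * M * (Expo M N r).card := by
      calc ε ^ 2 * M * ((bad.card : ℝ) * 2)
          ≤ ε ^ 2 * M * ((Fintype.card V * ∑ i : Fin N, ((Bad M N r ε i).card : ℝ)) * 2) := by
            gcongr
        _ = 2 * Fintype.card V * (ε ^ 2 * M * ∑ i : Fin N, ((Bad M N r ε i).card : ℝ)) := by ring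
        _ ≤ 2 * Fintype.card V * (N * (Expo M N r).card) := by gcongr
        _ = (2 * Fintype.card V * N) * (Expo M N r).card := by ring
        _ < ε ^ 2 * M * (Expo M N r).card := by gcongr
    exact lt_of_mul_lt_mul_left h7 hεM.le
  have hα : 0 < Fintype.card α := by
    rw [Fintype.card_coe]; exact Finset.card_pos.mpr hne
  have hlt : Fintype.card α < Fintype.card β := by
    have : (Fintype.card α : ℝ) < Fintype.card β := by
      have : (0 : ℝ) ≤ Fintype.card α := by positivity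
      linarith
    exact_mod_cast this
  obtain ⟨t, ht0, htL, htn⟩ := Int.Matrix.exists_ne_zero_int_vec_norm_le L hlt hα
  have hLnorm : ‖L‖ ≤ (K : ℝ) ^ (∑ h, r h) := by
    rw [Matrix.norm_le_iff (by positivity)]
    intro x g
    have h1 := coeff_img_le (A x.1.1) K (hKrow x.1.1) g.1 (toE x.1.2)
    have h2 : ∑ h, ∑ i, g.1 h i = ∑ h, r h := by
      have := mem_Expo.mp g.2
      exact Finset.sum_congr rfl fun h _ => this h
    rw [h2] at h1
    rw [Int.norm_eq_abs]
    show |(((img (A x.1.1) g.1).coeff (toE x.1.2) : ℤ) : ℝ)| ≤ _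
    exact_mod_cast h1
  have htb : ∀ g : β, |(t g : ℝ)| ≤ (2 ^ N * K) ^ (∑ h, r h) := by
    intro g
    have h1 : ‖t g‖ ≤ ‖t‖ := norm_le_pi_norm t g
    rw [Int.norm_eq_abs] at h1
    refine (h1.trans htn).trans ?_
    have h2 : (1 : ℝ) ≤ Fintype.card β * max 1 ‖L‖ := by
      have h3 : (1 : ℝ) ≤ Fintype.card β := by
        have : 1 ≤ Fintype.card β := by omega
        exact_mod_cast this
      have h4 : (1 : ℝ) ≤ max 1 ‖L‖ := le_max_left _ _
      nlinarith
    have h3 : (Fintype.card α : ℝ) / (Fintype.card β - Fintype.card α) ≤ 1 := by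
      rw [div_le_one (by have : (0 : ℝ) ≤ Fintype.card α := by positivity
                         linarith)]
      linarith
    calc ((Fintype.card β : ℝ) * max 1 ‖L‖) ^
          ((Fintype.card α : ℝ) / (Fintype.card β - Fintype.card α))
        ≤ ((Fintype.card β : ℝ) * max 1 ‖L‖) ^ (1 : ℝ) :=
          Real.rpow_le_rpow_of_exponent_le h2 h3
      _ = (Fintype.card β : ℝ) * max 1 ‖L‖ := Real.rpow_one _
      _ ≤ (2 : ℝ) ^ (N * ∑ h, r h) * (K : ℝ) ^ (∑ h, r h) := by
          have h5 : (Fintype.card β : ℝ) ≤ (2 : ℝ) ^ (N * ∑ h, r h) := by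
            rw [Fintype.card_coe]
            exact_mod_cast card_Expo_le r
          have h6 : max 1 ‖L‖ ≤ (K : ℝ) ^ (∑ h, r h) := max_le (one_le_pow₀ hK1') hLnorm
          exact mul_le_mul h5 h6 (by positivity) (by positivity)
      _ = _ := by rw [mul_pow, pow_mul]
  refine ⟨fun g => if hg : g ∈ Expo M N r then t ⟨g, hg⟩ else 0, ?_, ?_, ?_⟩
  · obtain ⟨g, hg⟩ := Function.ne_iff.mp ht0
    refine ⟨g.1, g.2, ?_⟩
    show (if hg : g.1 ∈ Expo M N r then t ⟨g.1, hg⟩ else 0) ≠ 0
    rw [dif_pos g.2]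
    exact hg
  · intro g hg
    simp only [dif_pos hg]
    exact htb ⟨g, hg⟩
  · intro x hx
    rw [subst_polyOf, coeff_sum]
    have h1 := congrFun htL ⟨x, hx⟩
    rw [Matrix.mulVec, dotProduct] at h1
    rw [← Finset.sum_coe_sort]
    simp only [Pi.zero_apply] at h1
    rw [← h1]
    apply Finset.sum_congr rfl
    intro g _
    rw [coeff_C_mul, dif_pos g.2]
    show _ = (img (A x.1) g.1).coeff (toE x.2) * t g
    rw [mul_comm]

end Helper57.SST
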